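import Pool.Agent.H94.TW2

set_option autoImplicit false

namespace Pool.Agent.Results.MP_30ce6b_an.Positive
open Pool.Agent.H94.TW

theorem result (p : ℝ) (hp : 1 < p) : ∃ ψ : EuclideanSpace ℝ (Fin 3) → ℝ,
    Continuous ψ ∧ (∀ x, 0 < ψ x) ∧ IsSol p ψ := main hp

end Pool.Agent.Results.MP_30ce6b_an.Positive
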